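import Mathlib

/-!
# d-spaces and d-reflections of `T₀` spaces
-/

set_option autoImplicit false

universe u v

namespace Pool.Agent.U171.DR

/-- The specialization order: `x ≤ y` iff `x ∈ closure {y}`. -/
def Le {X : Type u} [TopologicalSpace X] (x y : X) : Prop := x ∈ closure ({y} : Set X)

/-- `D` is a directed (so nonempty) subset in the specialization order. -/
def IsDir {X : Type u} [TopologicalSpace X] (D : Set X) : Prop :=
  D.Nonempty ∧ ∀ a ∈ D, ∀ b ∈ D, ∃ c ∈ D, Le a c ∧ Le b c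

/-- `s` is a supremum of `D` in the specialization order. -/
def IsSup {X : Type u} [TopologicalSpace X] (D : Set X) (s : X) : Prop :=
  (∀ d ∈ D, Le d s) ∧ ∀ t, (∀ d ∈ D, Le d t) → Le s t

/-- `X` is a d-space (monotone convergence space): it is `T₀`, and every directed subset `D` has a
supremum `s` in the specialization order such that each open set containing `s` meets `D`. -/
structure DSpace (X : Type u) [TopologicalSpace X] : Prop where
  t0 : T0Space X
  sup : ∀ D : Set X, IsDir D → ∃ s, IsSup D s ∧ ∀ U : Set X, IsOpen U → s ∈ U → (D ∩ U).Nonempty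

/-- `μ : X → Z` is a d-reflection of `X`. -/
structure IsDReflection {X Z : Type u} [TopologicalSpace X] [TopologicalSpace Z] (μ : X → Z) :
    Prop where
  dspace : DSpace Z
  cont : Continuous μ
  univ : ∀ (Y : Type u) [TopologicalSpace Y], DSpace Y → ∀ f : X → Y, Continuous f →
    ∃! g : Z → Y, Continuous g ∧ g ∘ μ = f

section basic

variable {X : Type u} [TopologicalSpace X]

theorem le_iff {x y : X} : Le x y ↔ y ⤳ x := (specializes_iff_mem_closure).symm

theorem le_iff_open {x y : X} : Le x y ↔ ∀ U : Set X, IsOpen U → x ∈ U → y ∈ U := by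
  rw [le_iff, specializes_iff_forall_open]

theorem le_refl (x : X) : Le x x := le_iff.2 specializes_rfl

theorem le_trans {x y z : X} (h : Le x y) (h' : Le y z) : Le x z :=
  le_iff.2 ((le_iff.1 h').trans (le_iff.1 h))

theorem le_antisymm [T0Space X] {x y : X} (h : Le x y) (h' : Le y x) : x = y :=
  ((le_iff.1 h').antisymm (le_iff.1 h)).eq

theorem isSup_unique [T0Space X] {D : Set X} {s t : X} (h : IsSup D s) (h' : IsSup D t) : s = t :=
  le_antisymm (h.2 t h'.1) (h'.2 s h.1)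

/-- In a d-space, every open set containing a supremum of a directed set meets this set. -/
theorem meets (hX : DSpace X) {D : Set X} (hD : IsDir D) {s : X} (hs : IsSup D s) {U : Set X}
    (hU : IsOpen U) (h : s ∈ U) : ∃ d ∈ D, d ∈ U := by
  obtain ⟨t, ht, h2⟩ := hX.sup D hD
  have := hX.t0
  obtain rfl := isSup_unique hs ht
  exact h2 U hU h

theorem le_map {Y : Type v} [TopologicalSpace Y] {f : X → Y} (hf : Continuous f) {x y : X}
    (h : Le x y) : Le (f x) (f y) := le_iff.2 ((le_iff.1 h).map hf)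

end basic

/-- `C` is closed under suprema of directed subsets. -/
def DClosed {X : Type u} [TopologicalSpace X] (C : Set X) : Prop :=
  ∀ D : Set X, IsDir D → D ⊆ C → ∀ s, IsSup D s → s ∈ C

/-- The image of `μ` is d-dense. -/
def DDense {X : Type u} {Z : Type v} [TopologicalSpace Z] (μ : X → Z) : Prop :=
  ∀ C : Set Z, DClosed C → (∀ x, μ x ∈ C) → ∀ z, z ∈ C

section suff

variable {X Z : Type u} [TopologicalSpace Z] {μ : X → Z}

/-- Two open sets of `Z` with the same trace on `X` are equal. -/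
theorem open_ext (hZ : DSpace Z) (hd : DDense μ) {U V : Set Z} (hU : IsOpen U) (hV : IsOpen V)
    (h : ∀ x, μ x ∈ U ↔ μ x ∈ V) (z : Z) : z ∈ U ↔ z ∈ V := by
  refine hd {z | z ∈ U ↔ z ∈ V} ?_ h z
  intro D hD hDC s hs
  show s ∈ U ↔ s ∈ V
  constructor
  · intro h1
    obtain ⟨d, hd1, hd2⟩ := meets hZ hD hs hU h1
    exact le_iff_open.1 (hs.1 d hd1) V hV ((hDC hd1).1 hd2)
  · intro h1
    obtain ⟨d, hd1, hd2⟩ := meets hZ hD hs hV h1
    exact le_iff_open.1 (hs.1 d hd1) U hU ((hDC hd1).2 hd2)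

variable [TopologicalSpace X]

/-- An inducing map with d-dense image into a d-space is a d-reflection. -/
theorem isDReflection_of (hZ : DSpace Z) (hi : Topology.IsInducing μ) (hd : DDense μ) :
    IsDReflection μ := by
  refine ⟨hZ, hi.continuous, fun Y _ hY f hf => ?_⟩
  have hex : ∀ z, ∃ y : Y, ∀ V : Set Y, IsOpen V → ∀ W : Set Z, IsOpen W → μ ⁻¹' W = f ⁻¹' V →
      (y ∈ V ↔ z ∈ W) := by
    intro z
    refine hd {z | ∃ y : Y, ∀ V : Set Y, IsOpen V → ∀ W : Set Z, IsOpen W → μ ⁻¹' W = f ⁻¹' V →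
      (y ∈ V ↔ z ∈ W)} ?_ ?_ z
    · intro D hD hDC s hs
      have hne : Nonempty Y := ⟨(hDC hD.1.choose_spec).choose⟩
      have hDC' : ∀ d ∈ D, ∃ y : Y, ∀ V : Set Y, IsOpen V → ∀ W : Set Z, IsOpen W →
          μ ⁻¹' W = f ⁻¹' V → (y ∈ V ↔ d ∈ W) := fun d hd => hDC hd
      choose! g hg using hDC'
      have hmono : ∀ a ∈ D, ∀ b ∈ D, Le a b → Le (g a) (g b) := by
        intro a ha b hb hab
        rw [le_iff_open]
        intro V hV haV
        obtain ⟨W, hW, hWV⟩ := hi.isOpen_iff.1 (hV.preimage hf)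
        have h1 := (hg a ha V hV W hW hWV).1 haV
        exact (hg b hb V hV W hW hWV).2 (le_iff_open.1 hab W hW h1)
      have hdir : IsDir (g '' D) := by
        refine ⟨hD.1.image g, ?_⟩
        rintro _ ⟨a, ha, rfl⟩ _ ⟨b, hb, rfl⟩
        obtain ⟨c, hc, hac, hbc⟩ := hD.2 a ha b hb
        exact ⟨g c, ⟨c, hc, rfl⟩, hmono a ha c hc hac, hmono b hb c hc hbc⟩
      obtain ⟨y, hy, hy2⟩ := hY.sup _ hdir
      refine ⟨y, fun V hV W hW hWV => ⟨fun h1 => ?_, fun h1 => ?_⟩⟩
      · obtain ⟨_, ⟨d, hd1, rfl⟩, hd2⟩ := hy2 V hV h1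
        exact le_iff_open.1 (hs.1 d hd1) W hW ((hg d hd1 V hV W hW hWV).1 hd2)
      · obtain ⟨d, hd1, hd2⟩ := meets hZ hD hs hW h1
        exact le_iff_open.1 (hy.1 _ ⟨d, hd1, rfl⟩) V hV ((hg d hd1 V hV W hW hWV).2 hd2)
    · intro x
      refine ⟨f x, fun V hV W hW hWV => ?_⟩
      have : x ∈ μ ⁻¹' W ↔ x ∈ f ⁻¹' V := by rw [hWV]
      exact this.symm
  choose g hg using hex
  have := hY.t0
  have hgc : Continuous g := by
    refine ⟨fun V hV => ?_⟩
    obtain ⟨W, hW, hWV⟩ := hi.isOpen_iff.1 (hV.preimage hf)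
    have : g ⁻¹' V = W := by
      ext z
      exact hg z V hV W hW hWV
    rw [this]; exact hW
  have hcomp : g ∘ μ = f := by
    funext x
    refine (inseparable_iff_forall_isOpen.2 fun V hV => ?_).eq
    obtain ⟨W, hW, hWV⟩ := hi.isOpen_iff.1 (hV.preimage hf)
    have h1 := hg (μ x) V hV W hW hWV
    have : x ∈ μ ⁻¹' W ↔ x ∈ f ⁻¹' V := by rw [hWV]
    exact h1.trans this
  refine ⟨g, ⟨hgc, hcomp⟩, ?_⟩
  rintro g' ⟨hg', hc'⟩
  funext z
  refine (inseparable_iff_forall_isOpen.2 fun V hV => ?_).eq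
  refine open_ext hZ hd (U := g' ⁻¹' V) (V := g ⁻¹' V) (hV.preimage hg') (hV.preimage hgc) ?_ z
  intro x
  show g' (μ x) ∈ V ↔ g (μ x) ∈ V
  rw [show g' (μ x) = f x from congrFun hc' x, show g (μ x) = f x from congrFun hcomp x]

end suff

end Pool.Agent.U171.DR
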