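import Pool.Agent.U171.DR.Defs

/-!
# d-reflections of products
-/

set_option autoImplicit false

universe u v

namespace Pool.Agent.U171.DR

/-! ### Products of d-spaces -/

section pi

variable {ι : Type v} {X : ι → Type u} [∀ i, TopologicalSpace (X i)]

theorem le_pi {x y : ∀ i, X i} : Le x y ↔ ∀ i, Le (x i) (y i) := by
  simp only [le_iff, specializes_pi]

theorem isDir_eval {D : Set (∀ i, X i)} (hD : IsDir D) (i : ι) : IsDir ((fun x => x i) '' D) := by
  refine ⟨hD.1.image _, ?_⟩
  rintro _ ⟨a, ha, rfl⟩ _ ⟨b, hb, rfl⟩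
  obtain ⟨c, hc, hac, hbc⟩ := hD.2 a ha b hb
  exact ⟨c i, ⟨c, hc, rfl⟩, le_pi.1 hac i, le_pi.1 hbc i⟩

theorem dspace_pi (h : ∀ i, DSpace (X i)) : DSpace (∀ i, X i) := by
  have ht : ∀ i, T0Space (X i) := fun i => (h i).t0
  refine ⟨inferInstance, fun D hD => ?_⟩
  choose s hs hm using fun i => (h i).sup _ (isDir_eval hD i)
  refine ⟨s, ⟨fun d hd => le_pi.2 fun i => (hs i).1 _ ⟨d, hd, rfl⟩, fun t ht => le_pi.2 fun i =>
    (hs i).2 _ ?_⟩, fun U hU hsU => ?_⟩
  · rintro _ ⟨d, hd, rfl⟩
    exact le_pi.1 (ht d hd) i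
  · obtain ⟨F, V, hV, hVU⟩ := isOpen_pi_iff.1 hU s hsU
    have key : ∀ G : Finset ι, G ⊆ F → ∃ d ∈ D, ∀ i ∈ G, d i ∈ V i := by
      classical
      intro G
      induction G using Finset.induction_on with
      | empty =>
        intro _
        obtain ⟨d, hd⟩ := hD.1
        exact ⟨d, hd, fun i hi => absurd hi (Finset.notMem_empty i)⟩
      | insert j G hj ih =>
        intro hG
        obtain ⟨d, hd, hdG⟩ := ih (fun i hi => hG (Finset.mem_insert_of_mem hi))
        have hjF : j ∈ F := hG (Finset.mem_insert_self j G)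
        obtain ⟨_, ⟨e, he, rfl⟩, heV⟩ := hm j (V j) (hV j hjF).1 (hV j hjF).2
        obtain ⟨c, hc, hdc, hec⟩ := hD.2 d hd e he
        refine ⟨c, hc, fun i hi => ?_⟩
        rcases Finset.mem_insert.1 hi with rfl | hi'
        · exact le_iff_open.1 (le_pi.1 hec i) _ (hV i hjF).1 heV
        · exact le_iff_open.1 (le_pi.1 hdc i) _ (hV i (hG hi)).1 (hdG i hi')
    obtain ⟨d, hd, hdV⟩ := key F (Finset.Subset.refl F)
    exact ⟨d, hd, hVU fun i hi => hdV i hi⟩

end pi

/-! ### Existence of d-reflections -/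

theorem le_prop {p q : Prop} : Le p q ↔ (p → q) := by
  rw [le_iff_open]
  constructor
  · intro h hp
    have := h {True} isOpen_singleton_true (by simp [hp])
    simpa using this
  · intro h U hU hp
    by_cases hq : q
    · have := continuous_Prop.1 (isOpen_iff_continuous_mem.1 hU)
      by_cases hp' : p
      · have e : p = q := by simp [hp', hq]
        rwa [← e]
      · have h1 : (nhds p : Filter Prop) = ⊤ := by
          simp [hp']
        have h2 : U ∈ nhds p := hU.mem_nhds hp
        rw [h1] at h2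
        have h3 : U = Set.univ := Filter.mem_top.1 h2
        rw [h3]; trivial
    · have e : p = q := by
        have : ¬ p := fun hp' => hq (h hp')
        simp [this, hq]
      rwa [← e]

theorem dspace_prop : DSpace Prop := by
  have ht : T0Space Prop := by
    refine ⟨fun p q hpq => ?_⟩
    have h1 := le_prop.1 (le_iff.2 hpq.specializes)
    have h2 := le_prop.1 (le_iff.2 hpq.symm.specializes)
    exact propext ⟨h2, h1⟩
  refine ⟨ht, fun D hD => ?_⟩
  have hmem : (∃ p ∈ D, p) ∈ D := by
    by_cases h : ∃ p ∈ D, p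
    · obtain ⟨p, hp, hpp⟩ := h
      have e : (∃ p ∈ D, p) = p := by
        have : ∃ p ∈ D, p := ⟨p, hp, hpp⟩
        simp [this, hpp]
      rwa [e]
    · obtain ⟨q, hq⟩ := hD.1
      have : ¬ q := fun hq' => h ⟨q, hq, hq'⟩
      have e : (∃ p ∈ D, p) = q := by simp only [h, this]
      rwa [e]
  refine ⟨∃ p ∈ D, p, ⟨fun d hd => le_prop.2 fun h => ⟨d, hd, h⟩, fun t ht => ht _ hmem⟩,
    fun U _ hU => ⟨_, hmem, hU⟩⟩

/-- A d-closed subset of a d-space is a d-space. -/
theorem dspace_subtype {Z : Type u} [TopologicalSpace Z] (hZ : DSpace Z) {C : Set Z}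
    (hC : DClosed C) : DSpace C := by
  have ht := hZ.t0
  have hle : ∀ x y : C, Le x y ↔ Le (x : Z) (y : Z) := fun x y => by
    rw [le_iff, le_iff]; exact (Topology.IsInducing.subtypeVal.specializes_iff).symm
  refine ⟨inferInstance, fun D hD => ?_⟩
  have hD' : IsDir (Subtype.val '' D) := by
    refine ⟨hD.1.image _, ?_⟩
    rintro _ ⟨a, ha, rfl⟩ _ ⟨b, hb, rfl⟩
    obtain ⟨c, hc, hac, hbc⟩ := hD.2 a ha b hb
    exact ⟨c, ⟨c, hc, rfl⟩, (hle _ _).1 hac, (hle _ _).1 hbc⟩
  obtain ⟨s, hs, hm⟩ := hZ.sup _ hD'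
  have hsC : s ∈ C := hC _ hD' (by rintro _ ⟨a, _, rfl⟩; exact a.2) s hs
  refine ⟨⟨s, hsC⟩, ⟨fun d hd => (hle _ _).2 (hs.1 _ ⟨d, hd, rfl⟩), fun t ht => (hle _ _).2
    (hs.2 _ ?_)⟩, fun U hU hsU => ?_⟩
  · rintro _ ⟨d, hd, rfl⟩
    exact (hle _ _).1 (ht d hd)
  · obtain ⟨W, hW, rfl⟩ := isOpen_induced_iff.1 hU
    obtain ⟨_, ⟨d, hd, rfl⟩, hdW⟩ := hm W hW hsU
    exact ⟨d, hd, hdW⟩

/-- Every `T₀` space has a d-reflection which is inducing and has d-dense image. -/
theorem exists_dReflection (X : Type u) [TopologicalSpace X] [T0Space X] :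
    ∃ (Z : Type u) (_ : TopologicalSpace Z) (μ : X → Z), DSpace Z ∧ Topology.IsInducing μ ∧
      DDense μ := by
  let P := TopologicalSpace.Opens X → Prop
  let e : X → P := TopologicalSpace.productOfMemOpens X
  have he : Topology.IsInducing e := TopologicalSpace.productOfMemOpens_isInducing X
  have hP : DSpace P := dspace_pi (ι := TopologicalSpace.Opens X) (X := fun _ => Prop)
    fun _ => dspace_prop
  let C : Set P := {z | ∀ A : Set P, DClosed A → (∀ x, e x ∈ A) → z ∈ A}
  have hCd : DClosed C := fun D hD hDC s hs A hA hx => hA D hD (fun d hd => hDC hd A hA hx) s hs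
  have heC : ∀ x, e x ∈ C := fun x A _ hx => hx x
  refine ⟨C, inferInstance, fun x => ⟨e x, heC x⟩, dspace_subtype hP hCd, ?_, ?_⟩
  · have h2 : Topology.IsInducing (Subtype.val ∘ fun x => (⟨e x, heC x⟩ : C)) := he
    exact Topology.IsInducing.of_comp (he.continuous.subtype_mk _) continuous_subtype_val h2
  · intro A hA hx z
    have hle : ∀ x y : C, Le x y ↔ Le (x : P) (y : P) := fun x y => by
      rw [le_iff, le_iff]; exact (Topology.IsInducing.subtypeVal.specializes_iff).symm
    have hz := z.2 (Subtype.val '' A) ?_ (fun x => ⟨_, hx x, rfl⟩)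
    · obtain ⟨w, hw, hwz⟩ := hz
      have : w = z := Subtype.ext hwz
      rwa [← this]
    · intro D hD hDA s hs
      have hsC : s ∈ C := hCd D hD (fun d hd => by
        obtain ⟨w, _, rfl⟩ := hDA hd
        exact w.2) s hs
      refine ⟨⟨s, hsC⟩, hA (Subtype.val ⁻¹' D) ⟨?_, ?_⟩ ?_ _ ⟨?_, ?_⟩, rfl⟩
      · obtain ⟨d, hd⟩ := hD.1
        obtain ⟨w, _, rfl⟩ := hDA hd
        exact ⟨w, hd⟩
      · intro a ha b hb
        obtain ⟨c, hc, hac, hbc⟩ := hD.2 _ ha _ hb
        obtain ⟨w, _, rfl⟩ := hDA hc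
        exact ⟨w, hc, (hle _ _).2 hac, (hle _ _).2 hbc⟩
      · intro a ha
        obtain ⟨w, hw, hwa⟩ := hDA ha
        have : w = a := Subtype.ext hwa
        rwa [← this]
      · intro d hd
        exact (hle _ _).2 (hs.1 _ hd)
      · intro t ht
        refine (hle _ _).2 (hs.2 _ fun d hd => ?_)
        obtain ⟨w, _, rfl⟩ := hDA hd
        exact (hle _ _).1 (ht w hd)

/-! ### Uniqueness -/

/-- Two d-reflections of a space are homeomorphic over it. -/
theorem unique {X Z Z' : Type u} [TopologicalSpace X] [TopologicalSpace Z] [TopologicalSpace Z']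
    {μ : X → Z} {ν : X → Z'} (hμ : IsDReflection μ) (hν : IsDReflection ν) :
    ∃ h : Z ≃ₜ Z', h ∘ μ = ν := by
  obtain ⟨f, ⟨hf, hfμ⟩, -⟩ := hμ.univ Z' hν.dspace ν hν.cont
  obtain ⟨g, ⟨hg, hgν⟩, -⟩ := hν.univ Z hμ.dspace μ hμ.cont
  have h1 : g ∘ f = id := by
    obtain ⟨k, -, hk⟩ := hμ.univ Z hμ.dspace μ hμ.cont
    rw [hk (g ∘ f) ⟨hg.comp hf, by rw [Function.comp_assoc, hfμ, hgν]⟩,
      hk id ⟨continuous_id, rfl⟩]
  have h2 : f ∘ g = id := by
    obtain ⟨k, -, hk⟩ := hν.univ Z' hν.dspace ν hν.cont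
    rw [hk (f ∘ g) ⟨hf.comp hg, by rw [Function.comp_assoc, hgν, hfμ]⟩,
      hk id ⟨continuous_id, rfl⟩]
  exact ⟨{ toFun := f, invFun := g, left_inv := fun x => congrFun h1 x,
           right_inv := fun x => congrFun h2 x, continuous_toFun := hf,
           continuous_invFun := hg }, hfμ⟩

theorem le_homeo {Z Z' : Type u} [TopologicalSpace Z] [TopologicalSpace Z'] (h : Z ≃ₜ Z')
    {x y : Z} : Le (h x) (h y) ↔ Le x y :=
  ⟨fun hxy => by simpa using le_map h.symm.continuous hxy, le_map h.continuous⟩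

/-- Every d-reflection of a `T₀` space is inducing with d-dense image. -/
theorem inducing_ddense {X Z : Type u} [TopologicalSpace X] [T0Space X] [TopologicalSpace Z]
    {μ : X → Z} (hμ : IsDReflection μ) : Topology.IsInducing μ ∧ DDense μ := by
  obtain ⟨Z', _, ν, hZ', hi, hd⟩ := exists_dReflection X
  obtain ⟨h, hh⟩ := unique (isDReflection_of hZ' hi hd) hμ
  subst hh
  refine ⟨h.isInducing.comp hi, fun C hC hx z => ?_⟩
  have := hd (h ⁻¹' C) ?_ hx (h.symm z)
  · simpa using this
  · intro D hD hDC s hs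
    refine hC (h '' D) ⟨hD.1.image h, ?_⟩ (Set.image_subset_iff.2 hDC) (h s) ⟨?_, ?_⟩
    · rintro _ ⟨a, ha, rfl⟩ _ ⟨b, hb, rfl⟩
      obtain ⟨c, hc, hac, hbc⟩ := hD.2 a ha b hb
      exact ⟨h c, ⟨c, hc, rfl⟩, (le_homeo h).2 hac, (le_homeo h).2 hbc⟩
    · rintro _ ⟨a, ha, rfl⟩
      exact (le_homeo h).2 (hs.1 a ha)
    · intro t ht
      have := hs.2 (h.symm t) fun d hd => by
        have h3 := ht (h d) ⟨d, hd, rfl⟩
        rw [← le_homeo h]; simpa using h3
      rw [← le_homeo h] at this; simpa using this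

/-! ### The product theorem -/

theorem below {X Z : Type u} [TopologicalSpace Z] {μ : X → Z} (hd : DDense μ) (z : Z) :
    ∃ a : X, Le (μ a) z := by
  refine hd {z | ∃ a : X, Le (μ a) z} ?_ (fun x => ⟨x, le_refl _⟩) z
  intro D hD hDC s hs
  obtain ⟨d, hd'⟩ := hD.1
  obtain ⟨a, ha⟩ := hDC hd'
  exact ⟨a, le_trans ha (hs.1 d hd')⟩

theorem ddense_pi {ι : Type v} {X Z : ι → Type u} [∀ i, TopologicalSpace (Z i)]
    {μ : ∀ i, X i → Z i} (hd : ∀ i, DDense (μ i)) :
    DDense (fun (x : ∀ i, X i) i => μ i (x i)) := by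
  classical
  intro C hC hx z
  choose a ha using fun i => below (hd i) (z i)
  have key : ∀ F : Finset ι, ∀ b : ∀ i, X i,
      (fun i => if i ∈ F then z i else μ i (b i)) ∈ C := by
    intro F
    induction F using Finset.induction_on with
    | empty =>
      intro b
      simpa using hx b
    | insert j F hj ih =>
      intro b
      have h1 : ∀ w : Z j, Function.update (fun i => if i ∈ F then z i else μ i (b i)) j w ∈ C := by
        refine hd j {w | Function.update (fun i => if i ∈ F then z i else μ i (b i)) j w ∈ C} ?_ ?_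
        · intro D hD hDC s hs
          refine hC ((fun w => Function.update (fun i => if i ∈ F then z i else μ i (b i)) j w) '' D)
            ⟨hD.1.image _, ?_⟩ (Set.image_subset_iff.2 hDC) _ ⟨?_, ?_⟩
          · rintro _ ⟨p, hp, rfl⟩ _ ⟨q, hq, rfl⟩
            obtain ⟨c, hc, hpc, hqc⟩ := hD.2 p hp q hq
            refine ⟨_, ⟨c, hc, rfl⟩, le_pi.2 fun i => ?_, le_pi.2 fun i => ?_⟩ <;>
            · by_cases hij : i = j
              · subst hij; simpa using by assumption
              · simpa [hij] using le_refl _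
          · rintro _ ⟨p, hp, rfl⟩
            refine le_pi.2 fun i => ?_
            by_cases hij : i = j
            · subst hij; simpa using hs.1 p hp
            · simpa [hij] using le_refl _
          · intro t ht
            refine le_pi.2 fun i => ?_
            by_cases hij : i = j
            · subst hij
              have := hs.2 (t i) fun d hd => by
                have h3 := le_pi.1 (ht _ ⟨d, hd, rfl⟩) i
                simpa using h3
              simpa using this
            · obtain ⟨d, hd'⟩ := hD.1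
              have h3 := le_pi.1 (ht _ ⟨d, hd', rfl⟩) i
              simpa [hij] using h3
        · intro x
          have h2 := ih (Function.update b j x)
          have e : (fun i => if i ∈ F then z i else μ i (Function.update b j x i)) =
              Function.update (fun i => if i ∈ F then z i else μ i (b i)) j (μ j x) := by
            funext i
            by_cases hij : i = j
            · subst hij; simp [hj]
            · simp [hij]
          rw [e] at h2
          exact h2
      have h2 := h1 (z j)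
      have e : Function.update (fun i => if i ∈ F then z i else μ i (b i)) j (z j) =
          fun i => if i ∈ insert j F then z i else μ i (b i) := by
        funext i
        by_cases hij : i = j
        · subst hij; simp
        · simp [hij]
      rw [e] at h2
      exact h2
  refine hC (Set.range fun F : Finset ι => fun i => if i ∈ F then z i else μ i (a i))
    ⟨⟨_, ⟨∅, rfl⟩⟩, ?_⟩ ?_ z ⟨?_, ?_⟩
  · rintro _ ⟨F, rfl⟩ _ ⟨G, rfl⟩
    refine ⟨_, ⟨F ∪ G, rfl⟩, le_pi.2 fun i => ?_, le_pi.2 fun i => ?_⟩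
    · by_cases h1 : i ∈ F
      · simpa [h1] using le_refl _
      · by_cases h2 : i ∈ G
        · simpa [h1, h2] using ha i
        · simpa [h1, h2] using le_refl _
    · by_cases h1 : i ∈ G
      · simpa [h1] using le_refl _
      · by_cases h2 : i ∈ F
        · simpa [h1, h2] using ha i
        · simpa [h1, h2] using le_refl _
  · rintro _ ⟨F, rfl⟩
    exact key F a
  · rintro _ ⟨F, rfl⟩
    refine le_pi.2 fun i => ?_
    by_cases h1 : i ∈ F
    · simpa [h1] using le_refl _
    · simpa [h1] using ha i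
  · intro t ht
    refine le_pi.2 fun i => ?_
    have := le_pi.1 (ht _ ⟨{i}, rfl⟩) i
    simpa using this

end Pool.Agent.U171.DR
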